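import Pool.Agent.Helper92.BW.GoalsB
import Pool.Agent.Helper13.FR.NIN

/-!
# The families (BW-FAM)
-/

namespace Pool.Agent.Helper61.BW

open Pool.Agent.Helper81.CC Pool.Agent.Bin Pool.Agent.Helper92.VP
open Pool.Agent.Helper92.FR hiding DepStmt
open Pool.Agent.Helper92.BW

theorem val_rco (r : List RQ × RQ) (j : ℕ) : (rco r j).val = coef r j := by
  unfold rco coef
  exact Pool.Agent.Helper13.FR.val_ofRQ _

theorem getD_map_range (n j : ℕ) (hj : j < n) (f : ℕ → Qn) (d : Qn) :
    ((List.range n).map f).getD j d = f j := by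
  rw [List.getD_eq_getElem _ _ (by simpa using hj)]
  simp

theorem crows_mem {S : Sys} {st : Cst} {r : List Qn × Qn} (h : r ∈ crows S.1 st (rowsQ S)) :
    ∃ r0 ∈ S.2, r.1 = (List.range S.1).map fun j => rco r0 j := by
  unfold crows rowsQ at h
  rw [List.mem_map] at h
  obtain ⟨r1, h1, rfl⟩ := h
  rw [List.mem_map] at h1
  obtain ⟨r0, h0, rfl⟩ := h1
  exact ⟨r0, h0, rfl⟩

theorem fam_mem {n v : ℕ} {par : List ℕ} {rows : List (List Qn × Qn)} {f : List Qn}
    (h : f ∈ Pool.Agent.Helper92.BW.fam n par rows v) :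
    ∃ r ∈ rows, abvB n par (lowr n r) v = true ∧
      f = (List.range n).map fun j => if v < j then r.1.getD j Qn.zero else Qn.zero := by
  unfold Pool.Agent.Helper92.BW.fam at h
  rw [List.mem_map] at h
  obtain ⟨r, hr, rfl⟩ := h
  rw [List.mem_filter] at hr
  exact ⟨r, hr.1, hr.2, rfl⟩

/-- The families. -/
theorem fam (habv : AbvStmt) : FamStmt := by
  intro k S par st hE
  obtain ⟨hlen, hinc, hch, hrank⟩ := hE
  obtain ⟨habv1, habv2⟩ := habv
  have hval : ∀ r0 : List RQ × RQ, ∀ r : List Qn × Qn,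
      (r.1 = (List.range S.1).map fun j => rco r0 j) → ∀ j < S.1,
        (r.1.getD j Qn.zero).val = coef r0 j := by
    intro r0 r hr j hj
    rw [hr, getD_map_range _ _ hj, val_rco]
  refine ⟨hlen, hinc, ?_, ?_, ?_⟩
  · intro r hr j hj hne
    obtain ⟨r0, h0, h1⟩ := crows_mem hr
    obtain ⟨hl1, hl2, hl3⟩ := habv2 S.1 r
    have hle : lowr S.1 r ≤ j := by
      by_contra hlt
      exact hne (hl3 j (by omega))
    have hlt : lowr S.1 r < S.1 := by omega
    refine ⟨hlt, ?_⟩
    rcases Nat.lt_or_ge (lowr S.1 r) j with h | h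
    · refine hch r0 h0 _ _ h hj ?_ ?_
      · rw [← hval r0 r h1 _ hlt]
        exact hl2 hlt
      · rw [← hval r0 r h1 _ hj]
        exact hne
    · have : lowr S.1 r = j := by omega
      rw [this]
      exact ⟨0, rfl⟩
  · intro v hv f hf
    obtain ⟨r, -, -, rfl⟩ := fam_mem hf
    refine ⟨by simp, fun j hj => ?_⟩
    rw [getD_map_range _ _ (by omega), if_neg (by omega)]
    simp
  · intro v hv
    refine le_trans ?_ (hrank v hv)
    unfold Set.finrank
    refine Submodule.finrank_mono (Submodule.span_mono ?_)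
    rintro w ⟨f, hf, rfl⟩
    obtain ⟨r, hr, hab, rfl⟩ := fam_mem hf
    obtain ⟨r0, h0, h1⟩ := crows_mem hr
    obtain ⟨hl1, hl2, hl3⟩ := habv2 S.1 r
    have habove := (habv1 S.1 par hlen hinc (lowr S.1 r) hl1 v hv).1 hab
    have hlt : lowr S.1 r < S.1 := by
      rcases Nat.lt_or_ge (lowr S.1 r) S.1 with h | h
      · exact h
      · exfalso
        have he : lowr S.1 r = S.1 := by omega
        rw [he] at habove
        obtain ⟨t, ht⟩ := habove
        have hfix : (fun x => par.getD x x) S.1 = S.1 := by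
          simp only
          rw [List.getD_eq_default _ _ (by omega)]
        have hit : (fun x => par.getD x x)^[t] S.1 = S.1 :=
          Function.iterate_fixed (f := fun x => par.getD x x) hfix t
        rw [hit] at ht
        omega
    refine ⟨r0, h0, ⟨lowr S.1 r, hlt, ?_, habove⟩, ?_⟩
    · rw [← hval r0 r h1 _ hlt]
      exact hl2 hlt
    · funext j
      unfold lv
      rw [getD_map_range _ _ j.2]
      split_ifs with h
      · exact hval r0 r h1 _ j.2
      · simp

end Pool.Agent.Helper61.BW
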